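import Pool.Agent.Helper25_CON.PDLem

/-!
Squad CON, module G_D: a maximal orthogonal frame in large rank
-/

noncomputable section

namespace Pool.Agent.CON.H66

open Pool.Agent.H25Cong

theorem g_d (hE : G_EXT) (hT : G_TYP) (h4 : G_HALF 4) (h5 : G_HALF 5) (h6 : G_HALF 6)
    (h7 : G_HALF 7) (h8 : G_HALF 8) : G_D := by
  intro M _ b C s k F hb hC hk hF hmax hR
  have key : ∀ α ∈ C, (∀ i, b α (F i) = 0) ∨ InD F α := by
    intro α hα
    rcases hT M b C s k F α hb hC (by omega) hF hα with h | h | ⟨i0, h, h'⟩ | ⟨hk8, ε, hε, h⟩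
    · exact Or.inl h
    · exact Or.inr h
    · exfalso
      obtain ⟨F', hF'⟩ := hE M b C s k F α i0 hb hC (by omega) hF hα h h'
      exact hmax (k + 1) (by omega) F' hF'
    · exfalso
      have hH : Half b s F α := ⟨ε, hε, h⟩
      interval_cases k
      · exact h4 M b C s F α hb hC hF hmax hα hH hR
      · exact h5 M b C s F α hb hC hF hmax hα hH hR
      · exact h6 M b C s F α hb hC hF hmax hα hH hR
      · exact h7 M b C s F α hb hC hF hmax hα hH hR
      · exact h8 M b C s F α hb hC hF hmax hα hH hR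
  have hD : {α ∈ C | InD F α} = C := by
    apply hC.conn
    · exact fun α h => h.1
    · have h01 : (⟨0, by omega⟩ : Fin k) ≠ ⟨1, by omega⟩ := by
        intro h
        have := congrArg Fin.val h
        simp at this
      obtain ⟨⟨w, hw, hw2⟩, -⟩ := hF.2.2 ⟨0, by omega⟩ ⟨1, by omega⟩ h01
      exact ⟨w, hw, _, _, h01, Or.inl hw2⟩
    · rintro α ⟨hα, i, j, hij, h⟩ β hβ hβD
      have hβ0 : ∀ i, b β (F i) = 0 := by
        rcases key β hβ with h' | h'
        · exact h'
        · exact absurd ⟨hβ, h'⟩ hβD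
      have h2 : 2 * b α β = 0 := by
        rw [← hb.zsmul_left]
        rcases h with h | h | h
        · rw [h, hb.add_left, hb.symm (F i), hb.symm (F j), hβ0, hβ0]; rfl
        · rw [h, hb.sub_left, hb.symm (F i), hb.symm (F j), hβ0, hβ0]; rfl
        · rw [h, hb.neg_left, hb.add_left, hb.symm (F i), hb.symm (F j), hβ0, hβ0]; rfl
      omega
  intro α hα
  rw [← hD] at hα
  exact hα.2

end Pool.Agent.CON.H66
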